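import Pool.Agent.ZAR.Stmts

/-!
Squad ZAR, row SV6: eight transversal families.
-/

set_option autoImplicit false

namespace Pool.Agent.ZAR.H81

open MvPowerSeries Pool.Agent.ZAR

variable {K : Type} [Field K]

theorem hasSubst_of0 {p q : ℕ} {s : Fin p → MvPowerSeries (Fin q) K}
    (hs : ∀ i, constantCoeff (s i) = 0) : HasSubst s :=
  hasSubst_of_constantCoeff_zero hs

theorem subst_zero' {p q : ℕ} {s : Fin p → MvPowerSeries (Fin q) K} (hs : HasSubst s) :
    subst s (0 : MvPowerSeries (Fin p) K) = 0 := by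
  rw [← coe_substAlgHom hs, map_zero]

theorem subst_one' {p q : ℕ} {s : Fin p → MvPowerSeries (Fin q) K} (hs : HasSubst s) :
    subst s (1 : MvPowerSeries (Fin p) K) = 1 := by
  rw [← coe_substAlgHom hs, map_one]

theorem subst_neg' {p q : ℕ} {s : Fin p → MvPowerSeries (Fin q) K} (hs : HasSubst s)
    (f : MvPowerSeries (Fin p) K) : subst s (-f) = -subst s f := by
  rw [← coe_substAlgHom hs, map_neg]

/-- the graph of `F` over the coordinate hyperplane `m` -/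
noncomputable def gr (m : Fin 6) (F : MvPowerSeries (Fin 5) K) : Fin 6 → MvPowerSeries (Fin 5) K :=
  Fin.insertNth (α := fun _ => MvPowerSeries (Fin 5) K) m F (fun i => X i)

theorem gr_same (m : Fin 6) (F : MvPowerSeries (Fin 5) K) : gr m F m = F :=
  Fin.insertNth_apply_same (α := fun _ => MvPowerSeries (Fin 5) K) m F _

theorem gr_succ (m : Fin 6) (F : MvPowerSeries (Fin 5) K) (i : Fin 5) :
    gr m F (m.succAbove i) = X i :=
  Fin.insertNth_apply_succAbove (α := fun _ => MvPowerSeries (Fin 5) K) m F _ i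

theorem gr_cc (m : Fin 6) {F : MvPowerSeries (Fin 5) K} (hF : constantCoeff F = 0) (j : Fin 6) :
    constantCoeff (gr m F j) = 0 := by
  rcases Fin.eq_self_or_eq_succAbove m j with h | ⟨i, h⟩
  · rw [h, gr_same, hF]
  · rw [h, gr_succ, constantCoeff_X]

theorem van_of {a : Fin 6 → MvPowerSeries (Fin 5) K} (h0 : ∀ i, constantCoeff (a i) = 0)
    (h : a 0 * (a 0 - a 2 ^ 3) * (a 0 + a 2 ^ 2 * a 3) * a 1 * a 2 * a 3 *
      (a 2 + a 3 - a 1 ^ 2 * a 4) = 0) : Van (Ideal.span {fV K}) a := by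
  refine ⟨h0, ?_⟩
  intro f hf
  obtain ⟨c, rfl⟩ := Ideal.mem_span_singleton'.1 hf
  have hs : HasSubst a := hasSubst_of0 h0
  rw [subst_mul hs]
  have e : subst a (fV K) = a 0 * (a 0 - a 2 ^ 3) * (a 0 + a 2 ^ 2 * a 3) * a 1 * a 2 * a 3 *
      (a 2 + a 3 - a 1 ^ 2 * a 4) := by
    unfold fV
    simp only [subst_mul hs, subst_sub hs, subst_add hs, subst_pow hs, subst_X hs]
  rw [e, h, mul_zero]

/-- the equations of transversality for a graph -/
theorem sum_gr {q : ℕ} {L : Type} [Field L] [Algebra K L] (m : Fin 6)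
    (F : MvPowerSeries (Fin 5) K) {s : Fin 5 → MvPowerSeries (Fin q) K} (hs : HasSubst s)
    (g : Fin 6 → MvPowerSeries (Fin q) L) (i : Fin 5) :
    ∑ j, g j * bc K L (Fin q) (subst s (pderiv K i (gr m F j))) =
      g m * bc K L (Fin q) (subst s (pderiv K i F)) + g (m.succAbove i) := by
  rw [Fin.sum_univ_succAbove _ m, gr_same]
  congr 1
  rw [Finset.sum_eq_single i]
  · rw [gr_succ, pderiv_X_self, subst_one' hs, map_one, mul_one]
  · intro b _ hb
    rw [gr_succ, pderiv_X_of_ne hb, subst_zero' hs, map_zero, mul_zero]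
  · intro h
    exact absurd (Finset.mem_univ _) h

theorem sv_of {I : Ideal (MvPowerSeries (Fin 6) K)} {Y : Fin 6 → MvPowerSeries (Fin 4) K}
    (m m' : Fin 6) (hmm : m' ≠ m) (F : MvPowerSeries (Fin 5) K)
    (hY0 : ∀ j, constantCoeff (Y j) = 0) (hYm : Y m = 0)
    (hF : subst (fun i => Y (m'.succAbove i)) F = Y m')
    (hV : Van I (gr m 0)) (hV' : Van I (gr m' F)) : SV I Y := by
  have hs : HasSubst (fun i => Y (m.succAbove i)) := hasSubst_of0 fun i => hY0 _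
  have hs' : HasSubst (fun i => Y (m'.succAbove i)) := hasSubst_of0 fun i => hY0 _
  have e1 : ∀ j, subst (fun i => Y (m.succAbove i)) (gr m (0 : MvPowerSeries (Fin 5) K) j) = Y j := by
    intro j
    rcases Fin.eq_self_or_eq_succAbove m j with h | ⟨i, h⟩
    · rw [h, gr_same, subst_zero' hs, hYm]
    · rw [h, gr_succ, subst_X hs]
  have e2 : ∀ j, subst (fun i => Y (m'.succAbove i)) (gr m' F j) = Y j := by
    intro j
    rcases Fin.eq_self_or_eq_succAbove m' j with h | ⟨i, h⟩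
    · rw [h, gr_same, hF]
    · rw [h, gr_succ, subst_X hs']
  refine ⟨5, 5, gr m 0, gr m' F, fun i => Y (m.succAbove i), fun i => Y (m'.succAbove i), hV, hV',
    ⟨fun i => hY0 _, fun i => hY0 _, fun j => by rw [e1, e2], ?_⟩, e1⟩
  intro L _ _ g hg hg'
  have h1 : ∀ i, g (m.succAbove i) = 0 := by
    intro i
    have := hg i
    rw [sum_gr m 0 hs g i, map_zero, subst_zero' hs, map_zero, mul_zero, zero_add] at this
    exact this
  have h2 : g m' = 0 := by
    obtain ⟨i, hi⟩ := Fin.exists_succAbove_eq hmm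
    rw [← hi]
    exact h1 i
  have h3 : g m = 0 := by
    obtain ⟨i, hi⟩ := Fin.exists_succAbove_eq hmm.symm
    have := hg' i
    rw [sum_gr m' F hs' g i, h2, zero_mul, zero_add, hi] at this
    exact this
  funext j
  rcases Fin.eq_self_or_eq_succAbove m j with h | ⟨i, h⟩
  · rw [h, h3]
    rfl
  · rw [h, h1]
    rfl

theorem van0 : Van (Ideal.span {fV K}) (gr 0 (0 : MvPowerSeries (Fin 5) K)) := by
  refine van_of (gr_cc 0 (map_zero _)) ?_
  rw [gr_same]
  ring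

theorem van1 : Van (Ideal.span {fV K}) (gr 1 (0 : MvPowerSeries (Fin 5) K)) := by
  refine van_of (gr_cc 1 (map_zero _)) ?_
  rw [gr_same]
  ring

theorem van2 : Van (Ideal.span {fV K}) (gr 2 (0 : MvPowerSeries (Fin 5) K)) := by
  refine van_of (gr_cc 2 (map_zero _)) ?_
  rw [gr_same]
  ring

theorem van3 : Van (Ideal.span {fV K}) (gr 3 (0 : MvPowerSeries (Fin 5) K)) := by
  refine van_of (gr_cc 3 (map_zero _)) ?_
  rw [gr_same]
  ring

theorem vanB : Van (Ideal.span {fV K}) (gr 0 (X 1 ^ 3 : MvPowerSeries (Fin 5) K)) := by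
  refine van_of (gr_cc 0 (by simp)) ?_
  have e2 : gr 0 (X 1 ^ 3 : MvPowerSeries (Fin 5) K) 2 = X 1 := gr_succ 0 _ 1
  rw [gr_same, e2]
  ring

theorem vanC : Van (Ideal.span {fV K}) (gr 0 (-(X 1 ^ 2 * X 2) : MvPowerSeries (Fin 5) K)) := by
  refine van_of (gr_cc 0 (by simp)) ?_
  have e2 : gr 0 (-(X 1 ^ 2 * X 2) : MvPowerSeries (Fin 5) K) 2 = X 1 := gr_succ 0 _ 1
  have e3 : gr 0 (-(X 1 ^ 2 * X 2) : MvPowerSeries (Fin 5) K) 3 = X 2 := gr_succ 0 _ 2
  rw [gr_same, e2, e3]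
  ring

theorem vanD : Van (Ideal.span {fV K}) (gr 3 (X 1 ^ 2 * X 3 - X 2 : MvPowerSeries (Fin 5) K)) := by
  refine van_of (gr_cc 3 (by simp)) ?_
  have e1 : gr 3 (X 1 ^ 2 * X 3 - X 2 : MvPowerSeries (Fin 5) K) 1 = X 1 := gr_succ 3 _ 1
  have e2 : gr 3 (X 1 ^ 2 * X 3 - X 2 : MvPowerSeries (Fin 5) K) 2 = X 2 := gr_succ 3 _ 2
  have e4 : gr 3 (X 1 ^ 2 * X 3 - X 2 : MvPowerSeries (Fin 5) K) 4 = X 3 := gr_succ 3 _ 3
  rw [gr_same, e1, e2, e4]
  ring

theorem vanE : Van (Ideal.span {fV K}) (gr 2 (X 1 ^ 2 * X 3 - X 2 : MvPowerSeries (Fin 5) K)) := by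
  refine van_of (gr_cc 2 (by simp)) ?_
  have e1 : gr 2 (X 1 ^ 2 * X 3 - X 2 : MvPowerSeries (Fin 5) K) 1 = X 1 := gr_succ 2 _ 1
  have e3 : gr 2 (X 1 ^ 2 * X 3 - X 2 : MvPowerSeries (Fin 5) K) 3 = X 2 := gr_succ 2 _ 2
  have e4 : gr 2 (X 1 ^ 2 * X 3 - X 2 : MvPowerSeries (Fin 5) K) 4 = X 3 := gr_succ 2 _ 3
  rw [gr_same, e1, e3, e4]
  ring

theorem cc_gP (k : Fin 8) (j : Fin 6) : constantCoeff (gP K k j) = 0 := by
  fin_cases k <;> fin_cases j <;> simp [gP]

theorem sv6 : SV6Stmt := by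
  intro K _ k
  have h0 := cc_gP (K := K) k
  fin_cases k
  · refine sv_of 0 1 (by decide) 0 h0 rfl ?_ van0 van1
    rw [subst_zero' (hasSubst_of0 fun i => h0 _)]
    rfl
  · refine sv_of 1 0 (by decide) (X 1 ^ 3) h0 rfl ?_ van1 vanB
    have hs : HasSubst (fun i : Fin 5 => gP K 1 (Fin.succAbove 0 i)) := hasSubst_of0 fun i => h0 _
    show subst (fun i : Fin 5 => gP K 1 (Fin.succAbove 0 i)) _ = _
    rw [subst_pow hs, subst_X hs]
    rfl
  · refine sv_of 1 0 (by decide) (-(X 1 ^ 2 * X 2)) h0 rfl ?_ van1 vanC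
    have hs : HasSubst (fun i : Fin 5 => gP K 2 (Fin.succAbove 0 i)) := hasSubst_of0 fun i => h0 _
    show subst (fun i : Fin 5 => gP K 2 (Fin.succAbove 0 i)) _ = _
    rw [subst_neg' hs, subst_mul hs, subst_pow hs, subst_X hs, subst_X hs]
    rfl
  · refine sv_of 2 3 (by decide) 0 h0 rfl ?_ van2 van3
    rw [subst_zero' (hasSubst_of0 fun i => h0 _)]
    rfl
  · refine sv_of 2 3 (by decide) (X 1 ^ 2 * X 3 - X 2) h0 rfl ?_ van2 vanD
    have hs : HasSubst (fun i : Fin 5 => gP K 4 (Fin.succAbove 3 i)) := hasSubst_of0 fun i => h0 _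
    show subst (fun i : Fin 5 => gP K 4 (Fin.succAbove 3 i)) _ = _
    rw [subst_sub hs, subst_mul hs, subst_pow hs, subst_X hs, subst_X hs, subst_X hs]
    show (X 1 ^ 2 * X 2 - 0 : MvPowerSeries (Fin 4) K) = X 1 ^ 2 * X 2
    rw [sub_zero]
  · refine sv_of 3 2 (by decide) (X 1 ^ 2 * X 3 - X 2) h0 rfl ?_ van3 vanE
    have hs : HasSubst (fun i : Fin 5 => gP K 5 (Fin.succAbove 2 i)) := hasSubst_of0 fun i => h0 _
    show subst (fun i : Fin 5 => gP K 5 (Fin.succAbove 2 i)) _ = _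
    rw [subst_sub hs, subst_mul hs, subst_pow hs, subst_X hs, subst_X hs, subst_X hs]
    show (X 1 ^ 2 * X 2 - 0 : MvPowerSeries (Fin 4) K) = X 1 ^ 2 * X 2
    rw [sub_zero]
  · refine sv_of 0 2 (by decide) 0 h0 rfl ?_ van0 van2
    rw [subst_zero' (hasSubst_of0 fun i => h0 _)]
    rfl
  · refine sv_of 0 3 (by decide) 0 h0 rfl ?_ van0 van3
    rw [subst_zero' (hasSubst_of0 fun i => h0 _)]
    rfl

end Pool.Agent.ZAR.H81
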